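import Mathlib
/-!
# Periodic 2-balanced words with prescribed letter counts (MP_85ac7c_co): the construction

Letters are `0, 1, ..., n - 1`, with non decreasing frequencies.  A vector of letter counts is a
function `x : ℕ → ℤ`; `Pf x j` is the sum of the first `j` counts.  The word is greedy: the next
letter is the smallest index that minimises `gm x i = bt x i + kp i / 2`, where `bt x i` is the
bilinear form of `x` and the `i`-th unit vector, and `kp i` the value of the form at that vector.
-/
namespace Pool.Agent.BW2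
open Finset

/-- The sum of the first `j` counts. -/
def Pf (x : ℕ → ℤ) (j : ℕ) : ℤ := ∑ l ∈ range j, x l

/-- The bilinear form of `x` and the `i`-th unit vector. -/
def bt (n : ℕ) (c : ℕ → ℚ) (x : ℕ → ℤ) (i : ℕ) : ℚ :=
  x i + ∑ j ∈ Ico (i + 1) n, c j * (Pf x j : ℚ)

/-- The form at the `i`-th unit vector. -/
def kp (n : ℕ) (c : ℕ → ℚ) (i : ℕ) : ℚ := 1 + ∑ j ∈ Ico (i + 1) n, c j

/-- The key of the greedy rule. -/
def gm (n : ℕ) (c : ℕ → ℚ) (x : ℕ → ℤ) (i : ℕ) : ℚ := bt n c x i + kp n c i / 2

theorem Pf_add (x y : ℕ → ℤ) (j : ℕ) : Pf (fun l => x l + y l) j = Pf x j + Pf y j := by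
  simp [Pf, sum_add_distrib]

theorem Pf_sub (x y : ℕ → ℤ) (j : ℕ) : Pf (fun l => x l - y l) j = Pf x j - Pf y j := by
  simp [Pf, sum_sub_distrib]

theorem bt_add (n : ℕ) (c : ℕ → ℚ) (x y : ℕ → ℤ) (i : ℕ) :
    bt n c (fun l => x l + y l) i = bt n c x i + bt n c y i := by
  unfold bt
  simp only [Pf_add]
  push_cast
  simp only [mul_add, sum_add_distrib]
  ring

theorem bt_sub (n : ℕ) (c : ℕ → ℚ) (x y : ℕ → ℤ) (i : ℕ) :
    bt n c (fun l => x l - y l) i = bt n c x i - bt n c y i := by
  unfold bt
  simp only [Pf_sub]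
  push_cast
  simp only [mul_sub, sum_sub_distrib]
  ring

theorem kp_sub {n : ℕ} (c : ℕ → ℚ) {a b : ℕ} (hab : a < b) (hb : b < n) :
    kp n c a - kp n c b = ∑ j ∈ Ico (a + 1) (b + 1), c j := by
  unfold kp
  rw [← sum_Ico_consecutive c (show a + 1 ≤ b + 1 by omega) (show b + 1 ≤ n by omega)]
  ring

theorem bt_sub' {n : ℕ} (c : ℕ → ℚ) (x : ℕ → ℤ) {a b : ℕ} (hab : a < b) (hb : b < n) :
    bt n c x a - bt n c x b = x a - x b + ∑ j ∈ Ico (a + 1) (b + 1), c j * (Pf x j : ℚ) := by
  unfold bt
  rw [← sum_Ico_consecutive _ (show a + 1 ≤ b + 1 by omega) (show b + 1 ≤ n by omega)]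
  ring

/-- The main inequality: if all differences of `bt x` are small then all coordinates are small. -/
theorem coord_le {n : ℕ} {c : ℕ → ℚ} (hc : ∀ j, 0 ≤ c j) (s : ℤ) (hs : 1 ≤ s) (x : ℕ → ℤ)
    (h1 : ∀ a b, a < b → b < n → bt n c x b - bt n c x a < 2 * s + s * (kp n c a - kp n c b))
    (h2 : ∀ a b, a < b → b < n → bt n c x a - bt n c x b < 2 * s + s * (kp n c a - kp n c b))
    (h0 : Pf x n = 0) (i : ℕ) (hi : i < n) : x i ≤ 2 * s - 2 := by
  by_contra hcon
  push Not at hcon
  have hxi : 2 * s - 1 ≤ x i := by omega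
  rcases le_or_gt (Pf x i) (-s) with hP | hP
  · -- go down
    have key : ∀ t, t ≤ i → ∀ j, i - t ≤ j → j ≤ i → Pf x j ≤ -s := by
      intro t
      induction t with
      | zero =>
        intro _ j hj1 hj2
        have : j = i := by omega
        rw [this]; exact hP
      | succ t ih =>
        intro ht j hj1 hj2
        have ih' := ih (by omega)
        rcases Nat.lt_or_ge j (i - t) with hj | hj
        · have hja : j = i - (t + 1) := by omega
          have hji : j < i := by omega
          have h3 := h1 j i hji hi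
          have h4 := bt_sub' c x hji hi
          rw [kp_sub c hji hi, mul_sum] at h3
          have h5 : ∑ l ∈ Ico (j + 1) (i + 1), c l * (Pf x l : ℚ) ≤
              ∑ l ∈ Ico (j + 1) (i + 1), -((s : ℚ) * c l) := by
            refine sum_le_sum fun l hl => ?_
            rw [mem_Ico] at hl
            have h6 : (Pf x l : ℚ) ≤ -s := by exact_mod_cast ih' l (by omega) (by omega)
            have := mul_le_mul_of_nonneg_left h6 (hc l)
            linarith
          rw [sum_neg_distrib] at h5
          have h7 : ((x i : ℚ)) - x j < 2 * s := by linarith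
          have h8 : x i - x j < 2 * s := by exact_mod_cast h7
          have h9 : 0 ≤ x j := by omega
          have h10 : Pf x (j + 1) = Pf x j + x j := sum_range_succ _ _
          have h11 := ih' (j + 1) (by omega) (by omega)
          omega
        · exact ih' j hj hj2
    have h12 := key i le_rfl 0 (by omega) (by omega)
    have h13 : Pf x 0 = 0 := by simp [Pf]
    omega
  · -- go up
    have hP1 : Pf x (i + 1) = Pf x i + x i := sum_range_succ _ _
    have key : ∀ t, i + 1 + t ≤ n → ∀ j, i + 1 ≤ j → j ≤ i + 1 + t → s ≤ Pf x j := by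
      intro t
      induction t with
      | zero =>
        intro _ j hj1 hj2
        have : j = i + 1 := by omega
        rw [this]; omega
      | succ t ih =>
        intro ht j hj1 hj2
        have ih' := ih (by omega)
        rcases Nat.lt_or_ge (i + 1 + t) j with hj | hj
        · have hja : j = i + 1 + t + 1 := by omega
          have hji : i < i + 1 + t := by omega
          have hbn : i + 1 + t < n := by omega
          have h3 := h2 i (i + 1 + t) hji hbn
          have h4 := bt_sub' c x hji hbn
          rw [kp_sub c hji hbn, mul_sum] at h3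
          have h5 : ∑ l ∈ Ico (i + 1) (i + 1 + t + 1), (s : ℚ) * c l ≤
              ∑ l ∈ Ico (i + 1) (i + 1 + t + 1), c l * (Pf x l : ℚ) := by
            refine sum_le_sum fun l hl => ?_
            rw [mem_Ico] at hl
            have h6 : (s : ℚ) ≤ Pf x l := by exact_mod_cast ih' l (by omega) (by omega)
            have := mul_le_mul_of_nonneg_left h6 (hc l)
            linarith
          have h7 : ((x i : ℚ)) - x (i + 1 + t) < 2 * s := by linarith
          have h8 : x i - x (i + 1 + t) < 2 * s := by exact_mod_cast h7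
          have h9 : 0 ≤ x (i + 1 + t) := by omega
          have h10 : Pf x (i + 1 + t + 1) = Pf x (i + 1 + t) + x (i + 1 + t) :=
            sum_range_succ _ _
          have h11 := ih' (i + 1 + t) (by omega) (by omega)
          rw [hja]
          omega
        · exact ih' j hj1 hj
    have h12 := key (n - (i + 1)) (by omega) n (by omega) (by omega)
    omega

/-! ### The greedy rule -/

/-- `i` is the smallest index below `n` with the smallest key. -/
def IsMinKey (n : ℕ) (c : ℕ → ℚ) (x : ℕ → ℤ) (i : ℕ) : Prop :=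
  i < n ∧ (∀ j, j < n → gm n c x i ≤ gm n c x j)

theorem exists_isMinKey {n : ℕ} (hn : 0 < n) (c : ℕ → ℚ) (x : ℕ → ℤ) :
    ∃ i, IsMinKey n c x i := by
  obtain ⟨i, hi, hm⟩ := exists_min_image (range n) (fun i => gm n c x i) ⟨0, by simpa using hn⟩
  exact ⟨i, by simpa using hi, fun j hj => hm j (by simpa using hj)⟩

open Classical in
/-- The next letter. -/
noncomputable def nx (n : ℕ) (c : ℕ → ℚ) (x : ℕ → ℤ) : ℕ :=
  if h : ∃ i, IsMinKey n c x i then Nat.find h else 0

theorem nx_spec {n : ℕ} (hn : 0 < n) (c : ℕ → ℚ) (x : ℕ → ℤ) :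
    IsMinKey n c x (nx n c x) ∧ ∀ a, a < nx n c x → gm n c x (nx n c x) < gm n c x a := by
  classical
  have h := exists_isMinKey hn c x
  have hx : nx n c x = Nat.find h := by rw [nx, dif_pos h]
  rw [hx]
  refine ⟨Nat.find_spec h, fun a ha => ?_⟩
  have h1 := Nat.find_min h ha
  have h2 : Nat.find h < n := (Nat.find_spec h).1
  by_contra h3
  push Not at h3
  exact h1 ⟨ha.trans h2, fun j hj => h3.trans ((Nat.find_spec h).2 j hj)⟩

/-- The next letter depends only on the differences of the keys. -/
theorem nx_congr {n : ℕ} (c : ℕ → ℚ) (x y : ℕ → ℤ) (K : ℚ)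
    (h : ∀ i, i < n → gm n c y i = gm n c x i + K) : nx n c y = nx n c x := by
  have h1 : ∀ i, IsMinKey n c y i ↔ IsMinKey n c x i := by
    intro i
    unfold IsMinKey
    refine and_congr_right fun hi => ?_
    constructor
    · intro hm j hj
      have := hm j hj
      rw [h i hi, h j hj] at this
      linarith
    · intro hm j hj
      rw [h i hi, h j hj]
      have := hm j hj
      linarith
  have h2 : IsMinKey n c y = IsMinKey n c x := funext fun i => propext (h1 i)
  unfold nx
  rw [h2]

/-- The counts after `k` letters. -/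
noncomputable def xs (n : ℕ) (c : ℕ → ℚ) : ℕ → ℕ → ℤ
  | 0 => fun _ => 0
  | k + 1 => fun l => xs n c k l + if l = nx n c (xs n c k) then 1 else 0

/-- The word. -/
noncomputable def wd (n : ℕ) (c : ℕ → ℚ) (k : ℕ) : ℕ := nx n c (xs n c k)

theorem wd_lt {n : ℕ} (hn : 0 < n) (c : ℕ → ℚ) (k : ℕ) : wd n c k < n :=
  (nx_spec hn c (xs n c k)).1.1

theorem xs_succ (n : ℕ) (c : ℕ → ℚ) (k l : ℕ) :
    xs n c (k + 1) l = xs n c k l + if l = wd n c k then 1 else 0 := rfl

theorem xs_count (n : ℕ) (c : ℕ → ℚ) (p L l : ℕ) :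
    (((range L).filter (fun k => wd n c (p + k) = l)).card : ℤ) =
      xs n c (p + L) l - xs n c p l := by
  induction L with
  | zero => simp
  | succ L ih =>
    rw [range_add_one, filter_insert, ← Nat.add_assoc, xs_succ]
    split_ifs with h1 h2 h2
    · rw [card_insert_of_notMem (by simp)]
      push_cast
      rw [ih]; ring
    · exact absurd h1.symm h2
    · exact absurd h2.symm h1
    · rw [ih]; ring

theorem Pf_single {n i : ℕ} (x : ℕ → ℤ) (j : ℕ) :
    Pf (fun l => x l + if l = i then 1 else 0) j = Pf x j + if i < j then 1 else 0 := by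
  rw [Pf_add]
  congr 1
  unfold Pf
  rw [sum_ite_eq']
  simp

theorem Pf_xs {n : ℕ} (hn : 0 < n) (c : ℕ → ℚ) (k : ℕ) : Pf (xs n c k) n = k := by
  induction k with
  | zero => simp [Pf, xs]
  | succ k ih =>
    have h1 : xs n c (k + 1) = fun l => xs n c k l + if l = wd n c k then 1 else 0 := rfl
    rw [h1, Pf_single (n := n), ih, if_pos (wd_lt hn c k)]
    push_cast
    ring

/-- The change of `bt` when a letter is added. -/
theorem bt_single {n : ℕ} (c : ℕ → ℚ) (x : ℕ → ℤ) {i : ℕ} (l : ℕ) :
    bt n c (fun l => x l + if l = i then 1 else 0) l =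
      bt n c x l + (if l = i then 1 else 0) + ∑ j ∈ Ico (max l i + 1) n, c j := by
  unfold bt
  simp only [Pf_single (n := n)]
  push_cast
  have h1 : ∀ j, c j * ((Pf x j : ℚ) + if i < j then 1 else 0) =
      c j * (Pf x j : ℚ) + if i < j then c j else 0 := by
    intro j
    split_ifs <;> ring
  simp only [h1, sum_add_distrib]
  have h2 : ∑ j ∈ Ico (l + 1) n, (if i < j then c j else 0) =
      ∑ j ∈ Ico (max l i + 1) n, c j := by
    rw [← sum_filter]
    congr 1
    ext j
    simp only [mem_filter, mem_Ico]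
    omega
  rw [h2]
  ring

/-- The invariant. -/
def Inv (n : ℕ) (c : ℕ → ℚ) (x : ℕ → ℤ) : Prop :=
  ∀ a b, a < b → b < n → gm n c x b - gm n c x a < 1 ∧
    gm n c x a - gm n c x b ≤ 1 + (kp n c a - kp n c b)

theorem kp_anti {n : ℕ} {c : ℕ → ℚ} (hc : ∀ j, 0 ≤ c j) {a b : ℕ} (hab : a < b) (hb : b < n) :
    kp n c b ≤ kp n c a := by
  have h1 := kp_sub c hab hb
  have h2 : 0 ≤ ∑ j ∈ Ico (a + 1) (b + 1), c j := sum_nonneg fun j _ => hc j
  linarith

theorem inv_step {n : ℕ} (hn : 0 < n) {c : ℕ → ℚ} (hc : ∀ j, 0 ≤ c j) {x : ℕ → ℤ}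
    (hx : Inv n c x) : Inv n c (fun l => x l + if l = nx n c x then 1 else 0) := by
  obtain ⟨⟨hi, hmin⟩, hlt⟩ := nx_spec hn c x
  set i := nx n c x with hidef
  intro a b hab hb
  have ha : a < n := hab.trans hb
  have e1 : ∀ l, gm n c (fun l => x l + if l = i then 1 else 0) l =
      gm n c x l + (if l = i then 1 else 0) + (kp n c (max l i) - 1) := by
    intro l
    unfold gm
    rw [bt_single]
    unfold kp
    ring
  rw [e1, e1]
  have kab := kp_anti hc hab hb
  have hxab := hx a b hab hb
  rcases lt_trichotomy b i with hbi | hbi | hbi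
  · -- a < b < i
    rw [if_neg (by omega), if_neg (by omega), max_eq_right (by omega), max_eq_right (by omega)]
    constructor <;> linarith [hxab.1, hxab.2]
  · -- a < i = b
    subst hbi
    rw [if_pos rfl, if_neg (by omega), max_self, max_eq_right (by omega)]
    have h1 := hlt a (by omega)
    constructor
    · linarith
    · linarith [hxab.2]
  · rcases lt_trichotomy a i with hai | hai | hai
    · -- a < i < b
      rw [if_neg (by omega), if_neg (by omega), max_eq_left (by omega), max_eq_right (by omega)]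
      have kib := kp_anti hc hbi hb
      have h1 := (hx a i hai hi).2
      have h2 := hmin b hb
      constructor
      · linarith [hxab.1]
      · linarith
    · -- a = i < b
      subst hai
      rw [if_neg (by omega), if_pos rfl, max_self, max_eq_left (by omega)]
      have h2 := hmin b hb
      constructor
      · linarith [hxab.1]
      · linarith
    · -- i < a < b
      rw [if_neg (by omega), if_neg (by omega), max_eq_left (by omega), max_eq_left (by omega)]
      have h1 := (hx i a hai ha).1
      have h2 := hmin b hb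
      constructor
      · linarith [hxab.1]
      · linarith

theorem inv_xs {n : ℕ} (hn : 0 < n) {c : ℕ → ℚ} (hc : ∀ j, 0 ≤ c j) (k : ℕ) :
    Inv n c (xs n c k) := by
  induction k with
  | zero =>
    intro a b hab hb
    have kab := kp_anti hc hab hb
    have h1 : ∀ l, gm n c (xs n c 0) l = kp n c l / 2 := by
      intro l
      simp [gm, bt, xs, Pf]
    rw [h1, h1]
    constructor <;> linarith
  | succ k ih => exact inv_step hn hc ih

theorem two_balanced {n : ℕ} (hn : 0 < n) {c : ℕ → ℚ} (hc : ∀ j, 0 ≤ c j) (p q L i : ℕ)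
    (hi : i < n) :
    (xs n c (p + L) i - xs n c p i) - (xs n c (q + L) i - xs n c q i) ≤ 2 := by
  set y : ℕ → ℤ := fun l => (xs n c (p + L) l - xs n c p l) - (xs n c (q + L) l - xs n c q l)
    with hy
  have hb : ∀ l, bt n c y l = (gm n c (xs n c (p + L)) l - gm n c (xs n c p) l) -
      (gm n c (xs n c (q + L)) l - gm n c (xs n c q) l) := by
    intro l
    rw [hy, bt_sub, bt_sub, bt_sub]
    unfold gm
    ring
  have h := coord_le hc 2 (by norm_num) y ?_ ?_ ?_ i hi
  · have h' : y i ≤ 2 := by linarith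
    exact h'
  · intro a b hab hbn
    rw [hb, hb]
    have h1 := inv_xs hn hc (p + L) a b hab hbn
    have h2 := inv_xs hn hc p a b hab hbn
    have h3 := inv_xs hn hc (q + L) a b hab hbn
    have h4 := inv_xs hn hc q a b hab hbn
    push_cast
    linarith [h1.1, h2.2, h3.2, h4.1]
  · intro a b hab hbn
    rw [hb, hb]
    have h1 := inv_xs hn hc (p + L) a b hab hbn
    have h2 := inv_xs hn hc p a b hab hbn
    have h3 := inv_xs hn hc (q + L) a b hab hbn
    have h4 := inv_xs hn hc q a b hab hbn
    push_cast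
    linarith [h1.2, h2.1, h3.1, h4.2]
  · rw [hy, Pf_sub, Pf_sub, Pf_sub, Pf_xs hn, Pf_xs hn, Pf_xs hn, Pf_xs hn]
    push_cast
    ring

/-! ### Periodicity -/

theorem bt_self {n : ℕ} {c : ℕ → ℚ} {d : ℕ → ℤ}
    (hd : ∀ j, 1 ≤ j → j < n → c j * (Pf d j : ℚ) = d j - d (j - 1)) {i : ℕ} (hi : i < n) :
    bt n c d i = d (n - 1) := by
  have key : ∀ t, t < n → bt n c d (n - 1 - t) = d (n - 1) := by
    intro t
    induction t with
    | zero =>
      intro _
      have h0 : Ico (n - 1 - 0 + 1) n = (∅ : Finset ℕ) := by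
        rw [Ico_eq_empty_iff]; omega
      unfold bt
      rw [h0, sum_empty, Nat.sub_zero, add_zero]
    | succ t ih =>
      intro ht
      have ih' := ih (by omega)
      have hlt : n - 1 - (t + 1) < n - 1 - t := by omega
      have h1 := bt_sub' c d hlt (show n - 1 - t < n by omega)
      have h2 : n - 1 - (t + 1) + 1 = n - 1 - t := by omega
      have h3 : Ico (n - 1 - (t + 1) + 1) (n - 1 - t + 1) = {n - 1 - t} := by
        rw [h2]
        exact Nat.Ico_succ_singleton _
      rw [h3, sum_singleton, hd _ (by omega) (by omega),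
        show n - 1 - t - 1 = n - 1 - (t + 1) by omega, ih'] at h1
      linarith
  have := key (n - 1 - i) (by omega)
  rwa [show n - 1 - (n - 1 - i) = i by omega] at this

theorem xs_period {n : ℕ} (hn : 0 < n) {c : ℕ → ℚ} (hc : ∀ j, 0 ≤ c j) {d : ℕ → ℤ}
    (hd : ∀ j, 1 ≤ j → j < n → c j * (Pf d j : ℚ) = d j - d (j - 1)) {D : ℕ}
    (hD : Pf d n = D) : ∀ i, i < n → xs n c D i = d i := by
  have hP := Pf_xs hn c D
  have hinv := inv_xs hn hc D
  -- the difference and its opposite have small coordinates
  have hle : ∀ i, i < n → xs n c D i - d i ≤ 0 := by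
    intro i hi
    have h := coord_le hc 1 le_rfl (fun l => xs n c D l - d l) ?_ ?_ ?_ i hi
    · simpa using h
    · intro a b hab hbn
      rw [bt_sub, bt_sub, bt_self hd hbn, bt_self hd (hab.trans hbn)]
      have h1 := (hinv a b hab hbn).1
      have h2 := kp_anti hc hab hbn
      unfold gm at h1
      push_cast
      linarith
    · intro a b hab hbn
      rw [bt_sub, bt_sub, bt_self hd hbn, bt_self hd (hab.trans hbn)]
      have h1 := (hinv a b hab hbn).2
      have h2 := kp_anti hc hab hbn
      unfold gm at h1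
      push_cast
      linarith
    · rw [Pf_sub, hP, hD]; ring
  have hsum : ∑ l ∈ range n, (xs n c D l - d l) = 0 := by
    have : Pf (fun l => xs n c D l - d l) n = 0 := by rw [Pf_sub, hP, hD]; ring
    exact this
  intro i hi
  have h1 := (sum_eq_zero_iff_of_nonpos (fun l hl => hle l (by simpa using hl))).1 hsum i
    (by simpa using hi)
  linarith

theorem xs_add_period {n : ℕ} (hn : 0 < n) {c : ℕ → ℚ} (hc : ∀ j, 0 ≤ c j) {d : ℕ → ℤ}
    (hd : ∀ j, 1 ≤ j → j < n → c j * (Pf d j : ℚ) = d j - d (j - 1)) {D : ℕ}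
    (hD : Pf d n = D) (k : ℕ) : (∀ i, i < n → xs n c (k + D) i = xs n c k i + d i) ∧
      wd n c (k + D) = wd n c k := by
  have hw : ∀ k, (∀ i, i < n → xs n c (k + D) i = xs n c k i + d i) →
      wd n c (k + D) = wd n c k := by
    intro k hk
    unfold wd
    refine nx_congr c _ _ (d (n - 1) : ℚ) fun i hi => ?_
    have h1 : bt n c (xs n c (k + D)) i = bt n c (fun l => xs n c k l + d l) i := by
      unfold bt
      have h2 : ∀ j, j ∈ Ico (i + 1) n → c j * (Pf (xs n c (k + D)) j : ℚ) =
          c j * (Pf (fun l => xs n c k l + d l) j : ℚ) := by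
        intro j hj
        rw [mem_Ico] at hj
        have h3 : Pf (xs n c (k + D)) j = Pf (fun l => xs n c k l + d l) j := by
          unfold Pf
          exact sum_congr rfl fun l hl => hk l (by rw [mem_range] at hl; omega)
        rw [h3]
      rw [sum_congr rfl h2, hk i hi]
    unfold gm
    rw [h1, bt_add, bt_self hd hi]
    ring
  have hx : ∀ k, ∀ i, i < n → xs n c (k + D) i = xs n c k i + d i := by
    intro k
    induction k with
    | zero =>
      intro i hi
      rw [Nat.zero_add, xs_period hn hc hd hD i hi]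
      simp [xs]
    | succ k ih =>
      intro i hi
      rw [Nat.add_right_comm, xs_succ, xs_succ, ih i hi, hw k ih]
      ring
  exact ⟨hx k, hw k (hx k)⟩

/-- The word exists, for non decreasing demands. -/
theorem exists_word {n : ℕ} (hn : 0 < n) (d : ℕ → ℤ) (hpos : ∀ i, i < n → 0 < d i)
    (hmono : ∀ i, i + 1 < n → d i ≤ d (i + 1)) (D : ℕ) (hD : ∑ l ∈ range n, d l = D) :
    ∃ w : ℕ → ℕ, (∀ k, w k < n) ∧ (∀ k, w (k + D) = w k) ∧
      (∀ i, i < n → (((range D).filter (fun k => w k = i)).card : ℤ) = d i) ∧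
      ∀ p q L i, i < n → (((range L).filter (fun k => w (p + k) = i)).card : ℤ) -
        (((range L).filter (fun k => w (q + k) = i)).card : ℤ) ≤ 2 := by
  have hPpos : ∀ j, 1 ≤ j → j ≤ n → 0 < Pf d j := by
    intro j hj1 hj2
    unfold Pf
    refine sum_pos (fun l hl => hpos l (by rw [mem_range] at hl; omega)) ⟨0, ?_⟩
    rw [mem_range]; omega
  set c : ℕ → ℚ := fun j => if 1 ≤ j ∧ j < n then (d j - d (j - 1) : ℚ) / (Pf d j : ℚ) else 0
    with hcdef
  have hc : ∀ j, 0 ≤ c j := by
    intro j
    simp only [hcdef]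
    split_ifs with h
    · have h1 := hmono (j - 1) (by omega)
      rw [show j - 1 + 1 = j by omega] at h1
      have h2 : (d (j - 1) : ℚ) ≤ d j := by exact_mod_cast h1
      have h3 : (0 : ℚ) < Pf d j := by exact_mod_cast hPpos j h.1 h.2.le
      exact div_nonneg (by linarith) h3.le
    · exact le_rfl
  have hd : ∀ j, 1 ≤ j → j < n → c j * (Pf d j : ℚ) = d j - d (j - 1) := by
    intro j hj1 hj2
    simp only [hcdef]
    rw [if_pos ⟨hj1, hj2⟩]
    have h3 : (Pf d j : ℚ) ≠ 0 := by
      have : (0 : ℚ) < Pf d j := by exact_mod_cast hPpos j hj1 hj2.le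
      exact this.ne'
    field_simp
  refine ⟨wd n c, fun k => wd_lt hn c k, fun k => (xs_add_period hn hc hd hD k).2, ?_, ?_⟩
  · intro i hi
    have h1 := xs_count n c 0 D i
    simp only [Nat.zero_add] at h1
    rw [h1, xs_period hn hc hd hD i hi]
    simp [xs]
  · intro p q L i hi
    rw [xs_count, xs_count]
    exact two_balanced hn hc p q L i hi

end Pool.Agent.BW2
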